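import Pool.Agent.H14.AVS.S1
import Pool.Agent.H33.AVR.COR

/-!
# Project AVS, module CPH: the invariants of a Gram matrix
-/

set_option autoImplicit false

open Polynomial Matrix Pool.AVR

namespace Pool.AVS

namespace CPH

theorem rep_mk {K : Type} [Field K] (a b c : K) (h : K[X]) (G B : Matrix (Fin 3) (Fin 3) K)
    (hR : RepH a b c h G B) :
    ∃ ε : Fin 3 → COR.L a b c,
      (∀ i j, COR.T a b c (ε i * ε j * AdjoinRoot.mk _ h) = G i j) ∧
      ∀ i j, COR.T a b c (AdjoinRoot.root _ * (ε i * ε j * AdjoinRoot.mk _ h)) = B i j := by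
  obtain ⟨e, h1, h2⟩ := hR
  refine ⟨fun i => AdjoinRoot.mk _ (e i), fun i j => ?_, fun i j => ?_⟩
  · rw [← map_mul, ← map_mul, COR.T_mk, h1]
  · rw [← map_mul, ← map_mul, ← AdjoinRoot.mk_X, ← map_mul, COR.T_mk, h2]

theorem charpoly_eq {K : Type} [Field K] (a b c : K) (h : K[X])
    (B : Matrix (Fin 3) (Fin 3) K) (hR : RepH a b c h (AA K) B) :
    (AA K * B).charpoly = cub a b c := by
  obtain ⟨ε, h1, h2⟩ := rep_mk a b c h _ _ hR
  rw [← COR.leftMul a b c ε _ h1 B h2]
  have : Module.Finite K (COR.L a b c) := (AdjoinRoot.powerBasis' (COR.cub_monic a b c)).finite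
  have : Module.Free K (COR.L a b c) :=
    Module.Free.of_basis (AdjoinRoot.powerBasis' (COR.cub_monic a b c)).basis
  have h3 := (Algebra.lmul K (COR.L a b c) (AdjoinRoot.root (cub a b c))).charpoly_toMatrix
    (COR.bas a b c ε _ h1)
  have h4 := (Algebra.lmul K (COR.L a b c) (AdjoinRoot.root (cub a b c))).charpoly_toMatrix
    (AdjoinRoot.powerBasis' (COR.cub_monic a b c)).basis
  have h5 := charpoly_leftMulMatrix (AdjoinRoot.powerBasis' (COR.cub_monic a b c))
  rw [AdjoinRoot.powerBasis'_gen] at h5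
  have h6 : Algebra.leftMulMatrix (COR.bas a b c ε _ h1) (AdjoinRoot.root (cub a b c)) =
      LinearMap.toMatrix (COR.bas a b c ε _ h1) (COR.bas a b c ε _ h1)
        (Algebra.lmul K (COR.L a b c) (AdjoinRoot.root (cub a b c))) := rfl
  have h7 : Algebra.leftMulMatrix (AdjoinRoot.powerBasis' (COR.cub_monic a b c)).basis
      (AdjoinRoot.root (cub a b c)) =
      LinearMap.toMatrix (AdjoinRoot.powerBasis' (COR.cub_monic a b c)).basis
        (AdjoinRoot.powerBasis' (COR.cub_monic a b c)).basis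
        (Algebra.lmul K (COR.L a b c) (AdjoinRoot.root (cub a b c))) := rfl
  rw [h6, h3, ← h4, ← h7, h5, AdjoinRoot.minpoly_root (COR.cub_monic a b c).ne_zero,
    (COR.cub_monic a b c).leadingCoeff, inv_one, C_1, mul_one]

theorem symm_B {K : Type} [Field K] (a b c : K) (h : K[X])
    (G B : Matrix (Fin 3) (Fin 3) K) (hR : RepH a b c h G B) : Bᵀ = B := by
  obtain ⟨e, _, h2⟩ := hR
  ext i j
  rw [Matrix.transpose_apply, ← h2 j i, ← h2 i j, mul_comm (e j) (e i)]

end CPH

theorem cph_thm (hCHI : CHIStmt) : CPHStmt := by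
  intro K _ a b c h B hR
  exact ((hCHI K B (CPH.symm_B a b c h _ B hR)).2 a b c).1 (CPH.charpoly_eq a b c h B hR)

end Pool.AVS
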