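import Pool.Agent.H14.AVS.S1
import Pool.Agent.H33.AVR.COR

/-!
# Project AVS, module PTB: the explicit matrix of a point
-/

set_option autoImplicit false
set_option linter.unusedSimpArgs false

open Polynomial Matrix Pool.AVR

namespace Pool.AVS

namespace PTB

variable {K : Type} [Field K]

theorem T_quad (a b c α β γ : K) :
    COR.T a b c (algebraMap K _ α + algebraMap K _ β * AdjoinRoot.root _ +
      algebraMap K _ γ * AdjoinRoot.root _ ^ 2) = γ := by
  have h : (algebraMap K (COR.L a b c) α + algebraMap K _ β * AdjoinRoot.root _ +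
      algebraMap K _ γ * AdjoinRoot.root _ ^ 2) =
      AdjoinRoot.mk (cub a b c) (C α + C β * X + C γ * X ^ 2) := by
    simp only [map_add, map_mul, map_pow, AdjoinRoot.mk_X, AdjoinRoot.mk_C]
    rfl
  rw [h, COR.T_mk, COR.tau_of_lt]
  · simp
  · refine lt_of_le_of_lt (b := ((2 : ℕ) : WithBot ℕ)) ?_ (by norm_num)
    compute_degree
    simp

theorem cub_root (a b c : K) :
    (AdjoinRoot.root (cub a b c)) ^ 3 +
      algebraMap K (COR.L a b c) a * AdjoinRoot.root (cub a b c) ^ 2 +
      algebraMap K (COR.L a b c) b * AdjoinRoot.root (cub a b c) +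
      algebraMap K (COR.L a b c) c = 0 := by
  have h : AdjoinRoot.mk (cub a b c) (cub a b c) = 0 := AdjoinRoot.mk_self
  unfold cub at h ⊢
  simp only [map_add, map_mul, map_pow, AdjoinRoot.mk_X, AdjoinRoot.mk_C] at h
  exact h

theorem mk_sub (a b c x : K) :
    AdjoinRoot.mk (cub a b c) (C x - X) =
      algebraMap K (COR.L a b c) x - AdjoinRoot.root (cub a b c) := by
  simp only [map_sub, AdjoinRoot.mk_X, AdjoinRoot.mk_C]
  rfl

theorem hh_rel (a b c x y : K) (hy : y ≠ 0) :
    algebraMap K (COR.L a b c) (y ^ 2) * AdjoinRoot.mk (cub a b c) (hh a b x y) =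
      AdjoinRoot.root (cub a b c) ^ 2 +
        algebraMap K (COR.L a b c) (x + a) * AdjoinRoot.root (cub a b c) +
        algebraMap K (COR.L a b c) (x ^ 2 + a * x + b) := by
  have h : C (y ^ 2) * hh a b x y = X ^ 2 + C (x + a) * X + C (x ^ 2 + a * x + b) := by
    unfold hh
    rw [← mul_assoc, ← C_mul, mul_inv_cancel₀ (pow_ne_zero 2 hy), C_1, one_mul]
  have h2 := congrArg (AdjoinRoot.mk (cub a b c)) h
  simp only [map_add, map_mul, map_pow, AdjoinRoot.mk_X, AdjoinRoot.mk_C] at h2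
  simpa using h2

theorem part1 (h2 : (2 : K) ≠ 0) (a b c x y : K) (hc : OnC a b c x y) :
    (BP a b x y)ᵀ = BP a b x y ∧ ia (BP a b x y) = a ∧ ib (BP a b x y) = b ∧
      ic (BP a b x y) = c := by
  have hc' : y ^ 2 = x ^ 3 + a * x ^ 2 + b * x + c := hc
  refine ⟨?_, ?_, ?_, ?_⟩
  · ext i j
    fin_cases i <;> fin_cases j <;> rfl
  · simp only [ia, BP, Matrix.of_apply, Matrix.cons_val', Matrix.cons_val_zero,
      Matrix.cons_val_one, Matrix.cons_val]
    field_simp
    ring
  · simp only [ib, BP, Matrix.of_apply, Matrix.cons_val', Matrix.cons_val_zero,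
      Matrix.cons_val_one, Matrix.cons_val]
    have h4 : (4 : K) ≠ 0 := by
      have : (4 : K) = 2 * 2 := by norm_num
      rw [this]
      exact mul_ne_zero h2 h2
    field_simp
    ring
  · simp only [ic, BP, Matrix.det_fin_three, Matrix.of_apply, Matrix.cons_val',
      Matrix.cons_val_zero, Matrix.cons_val_one, Matrix.cons_val]
    have h4 : (4 : K) ≠ 0 := by
      have : (4 : K) = 2 * 2 := by norm_num
      rw [this]
      exact mul_ne_zero h2 h2
    have : c = y ^ 2 - x ^ 3 - a * x ^ 2 - b * x := by rw [hc']; ring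
    rw [this]
    field_simp
    ring

/-- the three elements -/
noncomputable def ee (a x y : K) : Fin 3 → K[X] :=
  ![X - C x, -C y, -((X - C x) * (X + C ((a + x) / 2)))]

/-- the products -/
theorem prods {L : Type} [CommRing L] (ξ S η H a b c x y u : L) (ha : a = 2 * u - x)
    (h1 : (x - ξ) * η = 1) (h2 : y ^ 2 * η = ξ ^ 2 + (x + a) * ξ + (x ^ 2 + a * x + b))
    (h3 : ξ ^ 3 + a * ξ ^ 2 + b * ξ + c = 0) (h4 : x - ξ = H * S ^ 2) :
    ∀ e : Fin 3 → L, e = ![ξ - x, -y, -((ξ - x) * (ξ + u))] →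
      ∀ i j, e i * S * η * (e j * S * η) * H = (!![x, y, -(x * u); y, x ^ 2 + a * x + b, -(y * u);
        -(x * u), -(y * u), x * u ^ 2 + c] : Matrix (Fin 3) (Fin 3) L) i j +
        (!![-1, 0, u - x; 0, x + a, -y;
          u - x, -y, -(u ^ 2 - 2 * u * x - b)] : Matrix (Fin 3) (Fin 3) L) i j * ξ +
        (!![0, 0, 1; 0, 1, 0; 1, 0, 0] : Matrix (Fin 3) (Fin 3) L) i j * ξ ^ 2 := by
  intro e he i j
  have key : ∀ p q : L, p * S * η * (q * S * η) * H = p * q * η := by
    intro p q
    linear_combination (-p * q * η ^ 2) * h4 + p * q * η * h1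
  rw [key]
  subst he
  subst ha
  fin_cases i <;> fin_cases j
  · simp only [Fin.zero_eta, Fin.mk_one, Fin.reduceFinMk, Matrix.of_apply, Matrix.cons_val',
      Matrix.cons_val_zero, Matrix.cons_val_one, Matrix.cons_val]
    linear_combination (x - ξ) * h1
  · simp only [Fin.zero_eta, Fin.mk_one, Fin.reduceFinMk, Matrix.of_apply, Matrix.cons_val',
      Matrix.cons_val_zero, Matrix.cons_val_one, Matrix.cons_val]
    linear_combination y * h1
  · simp only [Fin.zero_eta, Fin.mk_one, Fin.reduceFinMk, Matrix.of_apply, Matrix.cons_val',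
      Matrix.cons_val_zero, Matrix.cons_val_one, Matrix.cons_val]
    linear_combination (ξ - x) * (ξ + u) * h1
  · simp only [Fin.zero_eta, Fin.mk_one, Fin.reduceFinMk, Matrix.of_apply, Matrix.cons_val',
      Matrix.cons_val_zero, Matrix.cons_val_one, Matrix.cons_val]
    linear_combination y * h1
  · simp only [Fin.zero_eta, Fin.mk_one, Fin.reduceFinMk, Matrix.of_apply, Matrix.cons_val',
      Matrix.cons_val_zero, Matrix.cons_val_one, Matrix.cons_val]
    linear_combination h2
  · simp only [Fin.zero_eta, Fin.mk_one, Fin.reduceFinMk, Matrix.of_apply, Matrix.cons_val',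
      Matrix.cons_val_zero, Matrix.cons_val_one, Matrix.cons_val]
    linear_combination -y * (ξ + u) * h1
  · simp only [Fin.zero_eta, Fin.mk_one, Fin.reduceFinMk, Matrix.of_apply, Matrix.cons_val',
      Matrix.cons_val_zero, Matrix.cons_val_one, Matrix.cons_val]
    linear_combination (ξ - x) * (ξ + u) * h1
  · simp only [Fin.zero_eta, Fin.mk_one, Fin.reduceFinMk, Matrix.of_apply, Matrix.cons_val',
      Matrix.cons_val_zero, Matrix.cons_val_one, Matrix.cons_val]
    linear_combination -y * (ξ + u) * h1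
  · simp only [Fin.zero_eta, Fin.mk_one, Fin.reduceFinMk, Matrix.of_apply, Matrix.cons_val',
      Matrix.cons_val_zero, Matrix.cons_val_one, Matrix.cons_val]
    linear_combination -(ξ - x) * (ξ + u) ^ 2 * h1 - h3

/-- the products times the variable -/
theorem prods2 {L : Type} [CommRing L] (ξ S η H a b c x y u : L) (ha : a = 2 * u - x)
    (h1 : (x - ξ) * η = 1) (h2 : y ^ 2 * η = ξ ^ 2 + (x + a) * ξ + (x ^ 2 + a * x + b))
    (h3 : ξ ^ 3 + a * ξ ^ 2 + b * ξ + c = 0) (h4 : x - ξ = H * S ^ 2) :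
    ∀ e : Fin 3 → L, e = ![ξ - x, -y, -((ξ - x) * (ξ + u))] →
      ∀ i j, ξ * (e i * S * η * (e j * S * η) * H) = (!![0, 0, -c; 0, -c, 0;
        -c, 0, 0] : Matrix (Fin 3) (Fin 3) L) i j +
        (!![x, y, -(x * u) - b; y, x ^ 2 + a * x, -(y * u);
          -(x * u) - b, -(y * u), x * u ^ 2 + c] : Matrix (Fin 3) (Fin 3) L) i j * ξ +
        (!![-1, 0, -u; 0, x, -y; -u, -y, b + 2 * u * x - u ^ 2] :
          Matrix (Fin 3) (Fin 3) L) i j * ξ ^ 2 := by
  intro e he i j
  rw [prods ξ S η H a b c x y u ha h1 h2 h3 h4 e he i j]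
  subst ha
  fin_cases i <;> fin_cases j <;>
    simp only [Fin.zero_eta, Fin.mk_one, Fin.reduceFinMk, Matrix.of_apply, Matrix.cons_val',
      Matrix.cons_val_zero, Matrix.cons_val_one, Matrix.cons_val]
  · ring
  · ring
  · linear_combination h3
  · ring
  · linear_combination h3
  · ring
  · linear_combination h3
  · ring
  · ring

theorem part2 (h2 : (2 : K) ≠ 0) (a b c x y : K) (hc : OnC a b c x y) (hy : y ≠ 0)
    (h s : K[X]) (hs : cub a b c ∣ (C x - X) - h * s ^ 2) :
    RepH a b c h (AA K) (BP a b x y) := by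
  set φ := algebraMap K (COR.L a b c) with hφ
  set ξ := AdjoinRoot.root (cub a b c) with hξ
  set η := AdjoinRoot.mk (cub a b c) (hh a b x y) with hη
  set u : K := (a + x) / 2 with hu
  have hau : a = 2 * u - x := by
    rw [hu]
    field_simp
    ring
  have h1 : (φ x - ξ) * η = 1 := by
    have := COR.hh_inv a b c x y hc hy
    rwa [mk_sub] at this
  have h3 := cub_root a b c
  have h4 : φ x - ξ = AdjoinRoot.mk (cub a b c) h * AdjoinRoot.mk (cub a b c) s ^ 2 := by
    rw [← mk_sub, ← map_pow, ← map_mul]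
    exact AdjoinRoot.mk_eq_mk.2 hs
  have h5 := hh_rel a b c x y hy
  simp only [map_add, map_mul, map_pow] at h5
  have h6 : φ a = 2 * φ u - φ x := by
    have := congrArg φ hau
    rwa [map_sub, map_mul, map_ofNat] at this
  have hee : (fun i => AdjoinRoot.mk (cub a b c) (ee a x y i)) =
      ![ξ - φ x, -φ y, -((ξ - φ x) * (ξ + φ u))] := by
    funext i
    fin_cases i
    · simp [ee, hξ, hφ, AdjoinRoot.algebraMap_eq]
    · simp [ee, hφ, AdjoinRoot.algebraMap_eq]
    · simp [ee, hξ, hφ, hu, AdjoinRoot.algebraMap_eq]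
  refine ⟨fun i => ee a x y i * s * hh a b x y, fun i j => ?_, fun i j => ?_⟩
  · rw [← COR.T_mk]
    simp only [map_mul]
    rw [prods ξ (AdjoinRoot.mk (cub a b c) s) η (AdjoinRoot.mk (cub a b c) h) (φ a) (φ b) (φ c)
      (φ x) (φ y) (φ u) h6 h1 h5 h3 h4 _ hee i j]
    rw [← T_quad a b c
      ((!![x, y, -(x * u); y, x ^ 2 + a * x + b, -(y * u);
        -(x * u), -(y * u), x * u ^ 2 + c] : Matrix (Fin 3) (Fin 3) K) i j)
      ((!![-1, 0, u - x; 0, x + a, -y;
          u - x, -y, -(u ^ 2 - 2 * u * x - b)] : Matrix (Fin 3) (Fin 3) K) i j) (AA K i j)]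
    refine congrArg _ ?_
    have h22 : (AdjoinRoot.of (cub a b c)) 2 = 2 := map_ofNat _ 2
    fin_cases i <;> fin_cases j <;> simp [AA, hφ, hξ, h22]
  · rw [← COR.T_mk]
    simp only [map_mul, AdjoinRoot.mk_X]
    rw [prods2 ξ (AdjoinRoot.mk (cub a b c) s) η (AdjoinRoot.mk (cub a b c) h) (φ a) (φ b) (φ c)
      (φ x) (φ y) (φ u) h6 h1 h5 h3 h4 _ hee i j]
    have hB : BP a b x y i j = (!![-1, 0, -u; 0, x, -y; -u, -y, b + 2 * u * x - u ^ 2] :
          Matrix (Fin 3) (Fin 3) K) i j := by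
      have h4' : (4 : K) ≠ 0 := by
        have : (4 : K) = 2 * 2 := by norm_num
        rw [this]
        exact mul_ne_zero h2 h2
      fin_cases i <;> fin_cases j <;> simp [BP, hu]
      · ring
      · ring
      · field_simp
        ring
    rw [hB, ← T_quad a b c
      ((!![0, 0, -c; 0, -c, 0;
        -c, 0, 0] : Matrix (Fin 3) (Fin 3) K) i j)
      ((!![x, y, -(x * u) - b; y, x ^ 2 + a * x, -(y * u);
          -(x * u) - b, -(y * u), x * u ^ 2 + c] : Matrix (Fin 3) (Fin 3) K) i j)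
      ((!![-1, 0, -u; 0, x, -y; -u, -y, b + 2 * u * x - u ^ 2] :
          Matrix (Fin 3) (Fin 3) K) i j)]
    refine congrArg _ ?_
    have h22 : (AdjoinRoot.of (cub a b c)) 2 = 2 := map_ofNat _ 2
    fin_cases i <;> fin_cases j <;> simp [hφ, hξ, h22]

end PTB

theorem ptb_thm : PTBStmt := fun _ _ h2 a b c x y hc =>
  ⟨PTB.part1 h2 a b c x y hc, fun hy h s hs => PTB.part2 h2 a b c x y hc hy h s hs⟩

end Pool.AVS
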