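import Pool.Agent.H14.AVS.S6

/-!
# Project AVS, module SHM: from short equations to minimal equations
-/

set_option autoImplicit false

open Polynomial Pool.AVR

namespace Pool.AVS

namespace SHM

variable {F : Type} [Field F]

/-- polynomials of bounded degree -/
def PL (F : Type) [Field F] (k : ℕ) : Set F[X] := {p | p.natDegree ≤ k}

theorem PL_eq (k : ℕ) : PL F k = (degreeLT F (k + 1) : Set F[X]) := by
  ext p
  simp only [PL, Set.mem_ofPred_eq, SetLike.mem_coe, mem_degreeLT]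
  constructor
  · intro h
    exact lt_of_le_of_lt degree_le_natDegree (by exact_mod_cast Nat.lt_succ_of_le h)
  · intro h
    by_cases hp : p = 0
    · simp [hp]
    rw [degree_eq_natDegree hp] at h
    exact Nat.lt_succ_iff.1 (by exact_mod_cast h)

theorem PL_finite [Finite F] (k : ℕ) : (PL F k).Finite := by
  rw [PL_eq]
  have : Finite (degreeLT F (k + 1)) := Finite.of_equiv _ (degreeLTEquiv F (k + 1)).symm.toEquiv
  exact Set.toFinite _

theorem PL_ncard [Finite F] (k : ℕ) : (PL F k).ncard = Nat.card F ^ (k + 1) := by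
  rw [PL_eq]
  have h := Nat.card_congr (degreeLTEquiv F (k + 1)).toEquiv
  rw [Nat.card_fun] at h
  have h2 : (degreeLT F (k + 1) : Set F[X]).ncard = Nat.card (degreeLT F (k + 1)) := rfl
  rw [h2]
  simpa using h

/-- monic polynomials of bounded degree -/
def MO (F : Type) [Field F] (k : ℕ) : Set F[X] := {l | l.Monic ∧ l.natDegree ≤ k}

theorem MO_finite [Finite F] (k : ℕ) : (MO F k).Finite := (PL_finite k).subset fun _ h => h.2

theorem MO_zero : (MO F 0).ncard = 1 := by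
  have : MO F 0 = {1} := by
    ext l
    simp only [MO, Set.mem_ofPred_eq, Set.mem_singleton_iff]
    constructor
    · rintro ⟨h1, h2⟩
      exact (Monic.natDegree_eq_zero h1).1 (Nat.le_zero.1 h2)
    · rintro rfl
      exact ⟨monic_one, by simp⟩
  rw [this, Set.ncard_singleton]

theorem MO_eq (k : ℕ) : MO F (k + 1) =
    insert 1 ((fun p : F[X] × F => X * p.1 + C p.2) '' (MO F k ×ˢ Set.univ)) := by
  ext l
  simp only [MO, Set.mem_ofPred_eq, Set.mem_insert_iff, Set.mem_image, Set.mem_prod, Set.mem_univ,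
    and_true, Prod.exists]
  constructor
  · rintro ⟨h1, h2⟩
    by_cases h3 : l = 1
    · exact Or.inl h3
    refine Or.inr ⟨l.divX, l.coeff 0, ?_, ?_⟩
    · have h4 : l.natDegree ≠ 0 := fun h => h3 ((Monic.natDegree_eq_zero h1).1 h)
      have h5 : l.divX.natDegree = l.natDegree - 1 := natDegree_divX_eq_natDegree_tsub_one
      refine ⟨?_, by omega⟩
      rw [Monic, leadingCoeff, h5, coeff_divX]
      have h6 : l.natDegree - 1 + 1 = l.natDegree := by omega
      rw [h6]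
      exact h1
    · rw [mul_comm]
      exact divX_mul_X_add l
  · rintro (rfl | ⟨p, c, ⟨h1, h2⟩, rfl⟩)
    · exact ⟨monic_one, by simp⟩
    · have h3 : (X * p).natDegree = p.natDegree + 1 := by
        rw [natDegree_X_mul h1.ne_zero]
      have h4 : (C c).degree < (X * p).degree := by
        refine lt_of_le_of_lt degree_C_le ?_
        rw [degree_eq_natDegree (monic_X.mul h1).ne_zero, h3]
        exact_mod_cast Nat.succ_pos _
      refine ⟨(monic_X.mul h1).add_of_left h4, ?_⟩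
      rw [natDegree_add_eq_left_of_degree_lt h4, h3]
      omega

theorem MO_succ [Finite F] (k : ℕ) :
    (MO F (k + 1)).ncard = 1 + Nat.card F * (MO F k).ncard := by
  have hfin : ((fun p : F[X] × F => X * p.1 + C p.2) '' (MO F k ×ˢ Set.univ)).Finite :=
    ((MO_finite k).prod Set.finite_univ).image _
  rw [MO_eq, Set.ncard_insert_of_notMem ?_ hfin, Set.ncard_image_of_injective, Set.ncard_prod,
    Set.ncard_univ, mul_comm, add_comm]
  · rintro ⟨p, c⟩ ⟨p', c'⟩ h
    simp only at h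
    have h1 : c = c' := by
      have := congrArg (fun r => coeff r 0) h
      simpa using this
    subst h1
    have h2 : X * p = X * p' := add_right_cancel h
    rw [mul_left_cancel₀ X_ne_zero h2]
  · rintro ⟨⟨p, c⟩, ⟨h1, _⟩, h⟩
    simp only at h
    have h3 : (X * p).natDegree = p.natDegree + 1 := by
      rw [natDegree_X_mul h1.1.ne_zero]
    have h4 : (C c).degree < (X * p).degree := by
      refine lt_of_le_of_lt degree_C_le ?_
      rw [degree_eq_natDegree (monic_X.mul h1.1).ne_zero, h3]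
      exact_mod_cast Nat.succ_pos _
    have h5 := natDegree_add_eq_left_of_degree_lt h4
    rw [h, h3] at h5
    simp at h5

/-- scaling -/
noncomputable def act (l : F[X]) (f : F[X] × F[X] × F[X]) : F[X] × F[X] × F[X] :=
  (0, l ^ 4 * f.2.1, l ^ 6 * f.2.2)

theorem subs_act (l : F[X]) (f : F[X] × F[X] × F[X]) (hf : f.1 = 0) : Subs l 0 f (act l f) := by
  simp [Subs, act, hf]

theorem act_one (f : F[X] × F[X] × F[X]) (hf : f.1 = 0) : act 1 f = f := by
  obtain ⟨a, b, c⟩ := f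
  simp only at hf
  simp [act, hf]

theorem act_mul (l m : F[X]) (f : F[X] × F[X] × F[X]) : act (l * m) f = act l (act m f) := by
  simp only [act, mul_pow, mul_assoc]

theorem deg_iff (l A : F[X]) (hl : l ≠ 0) (k n : ℕ) :
    (l ^ k * A).natDegree ≤ k * (n + l.natDegree) ↔ A.natDegree ≤ k * n := by
  by_cases hA : A = 0
  · simp [hA]
  rw [natDegree_mul (pow_ne_zero _ hl) hA, natDegree_pow, mul_add]
  omega

theorem act_fam (l : F[X]) (hl : l ≠ 0) (f : F[X] × F[X] × F[X]) (hf : f.1 = 0) (n : ℕ) :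
    act l f ∈ Fam F (n + l.natDegree) ↔ f ∈ Fam F n := by
  simp only [act, Fam, Set.mem_ofPred_eq, deg_iff l _ hl, hf, natDegree_zero, Nat.zero_le]

theorem disc_act (l : F[X]) (f : F[X] × F[X] × F[X]) (hf : f.1 = 0) :
    disc (act l f).1 (act l f).2.1 (act l f).2.2 = l ^ 12 * disc f.1 f.2.1 f.2.2 := by
  simp only [act, disc, hf]
  ring

theorem fam_mono {m n : ℕ} (h : m ≤ n) : Fam F m ⊆ Fam F n := by
  rintro f ⟨h1, h2, h3⟩
  exact ⟨by omega, by omega, by omega⟩

theorem fam_finite [Finite F] (n : ℕ) : (Fam F n).Finite := by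
  refine ((PL_finite (2 * n)).prod ((PL_finite (4 * n)).prod (PL_finite (6 * n)))).subset ?_
  rintro ⟨a, b, c⟩ ⟨h1, h2, h3⟩
  exact ⟨h1, h2, h3⟩

theorem sht_finite [Finite F] (n : ℕ) : (Sht F n).Finite :=
  (fam_finite n).subset fun _ h => h.1.1

theorem shtM_finite [Finite F] (n : ℕ) : (ShtM F n).Finite :=
  (sht_finite n).subset fun _ h => h.1

/-- minimality -/
def Mn (f : F[X] × F[X] × F[X]) : Prop :=
  ∀ P : F[X], P.Monic → Irreducible P → ¬ (P ^ 4 ∣ f.2.1 ∧ P ^ 6 ∣ f.2.2)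

theorem exists_min (n : ℕ) : ∀ f ∈ Sht F n, ∃ d ≤ n, ∃ f₀ ∈ ShtM F d, ∃ l ∈ MO F (n - d),
    act l f₀ = f := by
  classical
  induction n using Nat.strong_induction_on with
  | _ n ih =>
    intro f hf
    by_cases hm : Mn f
    · have hex : ∃ d, f ∈ Fam F d := ⟨n, hf.1.1⟩
      refine ⟨Nat.find hex, Nat.find_min' hex hf.1.1, f, ⟨⟨⟨Nat.find_spec hex, hf.1.2⟩, hf.2⟩,
        hm, ?_⟩, 1, ⟨monic_one, by simp⟩, act_one f hf.2⟩
      rintro ⟨h1, h2⟩
      have := Nat.find_min' hex h2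
      omega
    · simp only [Mn, not_forall, not_not] at hm
      obtain ⟨P, hP, hPi, ⟨A, hA⟩, ⟨B, hB⟩⟩ := hm
      have hfe : f = act P (0, A, B) := by
        obtain ⟨a, b, c⟩ := f
        have : a = 0 := hf.2
        simp only at hA hB
        rw [this, hA, hB]
        rfl
      have hd : disc (0 : F[X]) A B ≠ 0 := by
        intro h0
        have := hf.1.2
        rw [hfe, disc_act P _ rfl] at this
        exact this (by simp only; rw [h0, mul_zero])
      have hle : P.natDegree ≤ n := by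
        have h1 := hf.1.1
        rw [hfe] at h1
        obtain ⟨_, h2, h3⟩ := h1
        simp only [act] at h2 h3
        by_cases hA0 : A = 0
        · have hB0 : B ≠ 0 := by
            rintro rfl
            apply hd
            simp [disc, hA0]
          rw [natDegree_mul (pow_ne_zero _ hP.ne_zero) hB0, natDegree_pow] at h3
          omega
        · rw [natDegree_mul (pow_ne_zero _ hP.ne_zero) hA0, natDegree_pow] at h2
          omega
      have hpos : 0 < P.natDegree := hPi.natDegree_pos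
      have hf' : ((0, A, B) : F[X] × F[X] × F[X]) ∈ Sht F (n - P.natDegree) := by
        refine ⟨⟨?_, hd⟩, rfl⟩
        rw [← act_fam P hP.ne_zero _ rfl, ← hfe, Nat.sub_add_cancel hle]
        exact hf.1.1
      obtain ⟨d, hd1, f₀, hf₀, l, hl, hle2⟩ := ih (n - P.natDegree) (by omega) _ hf'
      refine ⟨d, by omega, f₀, hf₀, P * l, ⟨hP.mul hl.1, ?_⟩, ?_⟩
      · rw [natDegree_mul hP.ne_zero hl.1.ne_zero]
        have := hl.2
        omega
      · rw [act_mul, hle2, ← hfe]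

theorem unit_of (l' m' A₀ B₀ A₁ B₁ : F[X]) (hc : IsCoprime l' m')
    (h4 : l' ^ 4 * A₀ = m' ^ 4 * A₁) (h6 : l' ^ 6 * B₀ = m' ^ 6 * B₁)
    (hmin : ∀ P : F[X], P.Monic → Irreducible P → ¬ (P ^ 4 ∣ A₀ ∧ P ^ 6 ∣ B₀)) : IsUnit m' := by
  by_contra hu
  obtain ⟨P, hP, hPi, hPd⟩ := exists_monic_irreducible_factor m' hu
  refine hmin P hP hPi ⟨(pow_dvd_pow_of_dvd hPd 4).trans ?_, (pow_dvd_pow_of_dvd hPd 6).trans ?_⟩
  · exact (hc.symm.pow (m := 4) (n := 4)).dvd_of_dvd_mul_left ⟨A₁, h4⟩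
  · exact (hc.symm.pow (m := 6) (n := 6)).dvd_of_dvd_mul_left ⟨B₁, h6⟩

theorem uniq (l m : F[X]) (hl : l.Monic) (hm : m.Monic) (f g : F[X] × F[X] × F[X])
    (hf1 : f.1 = 0) (hg1 : g.1 = 0) (hf : Mn f) (hg : Mn g) (h : act l f = act m g) :
    l = m ∧ f = g := by
  obtain ⟨l', m', c, hrel, hl', hm'⟩ :=
    UniqueFactorizationMonoid.exists_reduced_factors l hl.ne_zero m
  have hc : IsCoprime l' m' := hrel.isCoprime
  have hc0 : c ≠ 0 := by
    rintro rfl
    rw [zero_mul] at hl'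
    exact hl.ne_zero hl'.symm
  simp only [act, Prod.mk.injEq, true_and] at h
  obtain ⟨h4, h6⟩ := h
  have e4 : l' ^ 4 * f.2.1 = m' ^ 4 * g.2.1 := by
    refine mul_left_cancel₀ (pow_ne_zero 4 hc0) ?_
    rw [← mul_assoc, ← mul_assoc, ← mul_pow, ← mul_pow, hl', hm']
    exact h4
  have e6 : l' ^ 6 * f.2.2 = m' ^ 6 * g.2.2 := by
    refine mul_left_cancel₀ (pow_ne_zero 6 hc0) ?_
    rw [← mul_assoc, ← mul_assoc, ← mul_pow, ← mul_pow, hl', hm']
    exact h6
  have u1 : IsUnit m' := unit_of l' m' _ _ _ _ hc e4 e6 hf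
  have u2 : IsUnit l' := unit_of m' l' _ _ _ _ hc.symm e4.symm e6.symm hg
  have hlm : l = m := by
    refine eq_of_monic_of_associated hl hm ?_
    rw [← hl', ← hm']
    have a1 : Associated (c * l') c := (associated_mul_unit_left c l' u2)
    have a2 : Associated (c * m') c := (associated_mul_unit_left c m' u1)
    exact a1.trans a2.symm
  refine ⟨hlm, ?_⟩
  subst hlm
  have k4 := mul_left_cancel₀ (pow_ne_zero 4 hl.ne_zero) h4
  have k6 := mul_left_cancel₀ (pow_ne_zero 6 hl.ne_zero) h6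
  obtain ⟨a, b, c'⟩ := f
  obtain ⟨a', b', c''⟩ := g
  simp only at hf1 hg1 k4 k6
  rw [hf1, hg1, k4, k6]

theorem uniq_ht {d d' : ℕ} {f : F[X] × F[X] × F[X]} (h : f ∈ ShtM F d) (h' : f ∈ ShtM F d') :
    d = d' := by
  rcases lt_trichotomy d d' with h1 | h1 | h1
  · exact absurd ⟨by omega, fam_mono (by omega) h.1.1.1⟩ h'.2.2
  · exact h1
  · exact absurd ⟨by omega, fam_mono (by omega) h'.1.1.1⟩ h.2.2

theorem conv [Finite F] (G : F[X] × F[X] × F[X] → ℝ)
    (hG : ∀ (f f' : F[X] × F[X] × F[X]) (l : F[X]), l.Monic → Subs l 0 f f' → G f = G f')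
    (n : ℕ) : ∑ᶠ f ∈ Sht F n, G f = ∑ d ∈ Finset.range (n + 1),
      ((MO F (n - d)).ncard : ℝ) * ∑ᶠ f ∈ ShtM F d, G f := by
  classical
  have e1 : ∀ d, ∑ᶠ f ∈ ShtM F d, G f = ∑ f ∈ (shtM_finite (F := F) d).toFinset, G f := fun d =>
    finsum_mem_eq_finite_toFinset_sum _ _
  rw [finsum_mem_eq_finite_toFinset_sum _ (sht_finite n)]
  have e2 : ∑ d ∈ Finset.range (n + 1), ((MO F (n - d)).ncard : ℝ) * ∑ᶠ f ∈ ShtM F d, G f =
      ∑ x ∈ (Finset.range (n + 1)).sigma fun d =>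
        (shtM_finite (F := F) d).toFinset ×ˢ (MO_finite (F := F) (n - d)).toFinset, G x.2.1 := by
    rw [Finset.sum_sigma]
    refine Finset.sum_congr rfl fun d _ => ?_
    rw [e1, Finset.sum_product, Finset.mul_sum]
    refine Finset.sum_congr rfl fun f _ => ?_
    simp only [Finset.sum_const, nsmul_eq_mul]
    rw [Set.ncard_eq_toFinset_card _ (MO_finite (F := F) (n - d))]
  rw [e2]
  symm
  refine Finset.sum_nbij (fun x => act x.2.2 x.2.1) ?_ ?_ ?_ ?_
  · rintro ⟨d, f, l⟩ hx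
    simp only [Finset.mem_sigma, Finset.mem_range, Finset.mem_product,
      Set.Finite.mem_toFinset] at hx
    obtain ⟨h1, h2, h3⟩ := hx
    rw [Set.Finite.mem_toFinset]
    refine ⟨⟨?_, ?_⟩, rfl⟩
    · have h4 := (act_fam l h3.1.ne_zero f h2.1.2 d).2 h2.1.1.1
      have h5 := h3.2
      exact fam_mono (by omega) h4
    · rw [disc_act l f h2.1.2]
      exact mul_ne_zero (pow_ne_zero _ h3.1.ne_zero) h2.1.1.2
  · rintro ⟨d, f, l⟩ hx ⟨d', f', l'⟩ hx' he
    simp only [Finset.coe_sigma, Set.mem_sigma_iff, Finset.mem_coe, Finset.mem_range,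
      Finset.mem_product, Set.Finite.mem_toFinset] at hx hx' he
    obtain ⟨h1, h2, h3⟩ := hx
    obtain ⟨h1', h2', h3'⟩ := hx'
    obtain ⟨k1, k2⟩ := uniq l l' h3.1 h3'.1 f f' h2.1.2 h2'.1.2 h2.2.1 h2'.2.1 he
    subst k1
    subst k2
    have k3 := uniq_ht h2 h2'
    subst k3
    rfl
  · intro f hf
    simp only [Set.Finite.coe_toFinset] at hf
    obtain ⟨d, hd, f₀, hf₀, l, hl, he⟩ := exists_min n f hf
    refine ⟨⟨d, f₀, l⟩, ?_, he⟩
    simp only [Finset.coe_sigma, Set.mem_sigma_iff, Finset.mem_coe, Finset.mem_range,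
      Finset.mem_product, Set.Finite.mem_toFinset]
    exact ⟨by omega, hf₀, hl⟩
  · rintro ⟨d, f, l⟩ hx
    simp only [Finset.mem_sigma, Finset.mem_range, Finset.mem_product,
      Set.Finite.mem_toFinset] at hx
    exact hG _ _ l hx.2.2.1 (subs_act l f hx.2.1.1.2)

theorem rec_M [Finite F] (k : ℕ) : ((MO F (k + 2)).ncard : ℝ) -
    (Nat.card F + 1) * (MO F (k + 1)).ncard + Nat.card F * (MO F k).ncard = 0 := by
  have h1 := MO_succ (F := F) (k + 1)
  have h2 := MO_succ (F := F) k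
  have h1' : ((MO F (k + 2)).ncard : ℝ) = 1 + Nat.card F * (MO F (k + 1)).ncard := by
    exact_mod_cast h1
  have h2' : ((MO F (k + 1)).ncard : ℝ) = 1 + Nat.card F * (MO F k).ncard := by
    exact_mod_cast h2
  rw [h1', h2']
  ring

theorem part1 [Finite F] (G : F[X] × F[X] × F[X] → ℝ)
    (hG : ∀ (f f' : F[X] × F[X] × F[X]) (l : F[X]), l.Monic → Subs l 0 f f' → G f = G f')
    (n : ℕ) : ∑ᶠ f ∈ ShtM F (n + 2), G f = ∑ᶠ f ∈ Sht F (n + 2), G f -
        (Nat.card F + 1) * ∑ᶠ f ∈ Sht F (n + 1), G f + Nat.card F * ∑ᶠ f ∈ Sht F n, G f := by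
  rw [conv G hG (n + 2), conv G hG (n + 1), conv G hG n]
  set M : ℕ → ℝ := fun d => ∑ᶠ f ∈ ShtM F d, G f with hM
  have e0 : ((MO F 0).ncard : ℝ) = 1 := by rw [MO_zero]; simp
  have e1 : ((MO F 1).ncard : ℝ) = 1 + Nat.card F := by
    have := MO_succ (F := F) 0
    rw [MO_zero] at this
    rw [this]
    push_cast
    ring
  rw [Finset.sum_range_succ _ (n + 2), Finset.sum_range_succ _ (n + 1),
    Finset.sum_range_succ _ (n + 1)]
  have s0 : n + 2 - (n + 2) = 0 := by omega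
  have s1 : n + 2 - (n + 1) = 1 := by omega
  have s2 : n + 1 - (n + 1) = 0 := by omega
  rw [s0, s1, s2, e0, e1]
  have key : ∑ d ∈ Finset.range (n + 1), ((MO F (n + 2 - d)).ncard : ℝ) * M d -
      (Nat.card F + 1) * ∑ d ∈ Finset.range (n + 1), ((MO F (n + 1 - d)).ncard : ℝ) * M d +
      Nat.card F * ∑ d ∈ Finset.range (n + 1), ((MO F (n - d)).ncard : ℝ) * M d = 0 := by
    rw [Finset.mul_sum, Finset.mul_sum, ← Finset.sum_sub_distrib, ← Finset.sum_add_distrib]
    refine Finset.sum_eq_zero fun d hd => ?_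
    have hd' := Finset.mem_range.1 hd
    obtain ⟨k, hk⟩ : ∃ k, n - d = k := ⟨_, rfl⟩
    have h1 : n + 1 - d = k + 1 := by omega
    have h2 : n + 2 - d = k + 2 := by omega
    rw [hk, h1, h2]
    have := rec_M (F := F) k
    linear_combination M d * this
  simp only [hM] at key ⊢
  linear_combination -key

theorem three_le [Finite F] (h2 : (2 : F) ≠ 0) : 3 ≤ Nat.card F := by
  have h1 : 1 < Nat.card F := Finite.one_lt_card
  have h3 : Nat.card F ≠ 2 := by
    intro h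
    have : Fintype F := Fintype.ofFinite F
    have h4 := FiniteField.cast_card_eq_zero F
    rw [← Nat.card_eq_fintype_card, h] at h4
    exact h2 (by exact_mod_cast h4)
  omega

/-- pairs of polynomials -/
def PP (F : Type) [Field F] (n : ℕ) : Set (F[X] × F[X]) := PL F (4 * n) ×ˢ PL F (6 * n)

theorem PP_ncard [Finite F] (n : ℕ) : (PP F n).ncard = Nat.card F ^ (4 * n + 1) *
    Nat.card F ^ (6 * n + 1) := by
  rw [PP, Set.ncard_prod, PL_ncard, PL_ncard]

theorem PP_finite [Finite F] (n : ℕ) : (PP F n).Finite := (PL_finite _).prod (PL_finite _)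

theorem sht_eq (n : ℕ) : Sht F n =
    (fun p : F[X] × F[X] => ((0 : F[X]), p.1, p.2)) '' (PP F n \ {p | disc 0 p.1 p.2 = 0}) := by
  ext ⟨a, b, c⟩
  constructor
  · rintro ⟨⟨⟨h1, h2, h3⟩, h4⟩, h5⟩
    simp only at h1 h2 h3 h4 h5
    subst h5
    exact ⟨(b, c), ⟨⟨h2, h3⟩, h4⟩, rfl⟩
  · rintro ⟨⟨A, B⟩, ⟨⟨h2, h3⟩, h4⟩, h5⟩
    simp only [Prod.mk.injEq] at h5
    obtain ⟨h5, h6, h7⟩ := h5
    subst h5
    subst h6
    subst h7
    exact ⟨⟨⟨by simp, h2, h3⟩, h4⟩, rfl⟩

theorem sht_ncard (n : ℕ) : (Sht F n).ncard =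
    (PP F n \ {p | disc 0 p.1 p.2 = 0}).ncard := by
  rw [sht_eq, Set.ncard_image_of_injective]
  rintro ⟨A, B⟩ ⟨A', B'⟩ h
  simp only [Prod.mk.injEq, true_and] at h
  rw [h.1, h.2]

theorem bad_le [Finite F] (h3 : (3 : F) ≠ 0) (n : ℕ) :
    (PP F n ∩ {p | disc 0 p.1 p.2 = 0}).ncard ≤ 2 * Nat.card F ^ (4 * n + 1) := by
  classical
  have hβ : ∃ β : F[X] → F[X], ∀ A B : F[X], disc 0 A B = 0 → B = β A ∨ B = -β A := by
    refine ⟨fun A => if h : ∃ B : F[X], disc 0 A B = 0 then h.choose else 0, fun A B hB => ?_⟩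
    have hex : ∃ B : F[X], disc 0 A B = 0 := ⟨B, hB⟩
    simp only [hex, dif_pos]
    have hc := hex.choose_spec
    set β := hex.choose
    have h27 : (27 : F[X]) ≠ 0 := by
      have : (27 : F[X]) = C (27 : F) := (map_ofNat C 27).symm
      rw [this]
      simp only [ne_eq, C_eq_zero]
      have : (27 : F) = 3 ^ 3 := by norm_num
      rw [this]
      exact pow_ne_zero 3 h3
    have h4 : B ^ 2 = β ^ 2 := by
      refine mul_left_cancel₀ h27 ?_
      simp only [disc] at hc hB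
      linear_combination hc - hB
    exact sq_eq_sq_iff_eq_or_eq_neg.1 h4
  obtain ⟨β, hβ⟩ := hβ
  have hsub : PP F n ∩ {p | disc 0 p.1 p.2 = 0} ⊆
      (fun p : F[X] × ℤ => (p.1, (p.2 : F[X]) * β p.1)) '' (PL F (4 * n) ×ˢ ({1, -1} : Set ℤ)) := by
    rintro ⟨A, B⟩ ⟨h4, h5⟩
    rcases hβ A B h5 with h | h
    · exact ⟨(A, 1), ⟨h4.1, by simp⟩, by simp [h]⟩
    · exact ⟨(A, -1), ⟨h4.1, by simp⟩, by simp [h]⟩
  have hfin : (PL F (4 * n) ×ˢ ({1, -1} : Set ℤ)).Finite := (PL_finite _).prod (Set.toFinite _)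
  refine (Set.ncard_le_ncard hsub (hfin.image _)).trans ((Set.ncard_image_le hfin).trans ?_)
  rw [Set.ncard_prod, PL_ncard, Set.ncard_pair (by norm_num), mul_comm]

theorem part2 [Finite F] (h2 : (2 : F) ≠ 0) (h3 : (3 : F) ≠ 0) (n : ℕ) :
    (Nat.card F : ℝ) ^ (10 * n + 2) / 4 ≤ (Sht F n).ncard ∧
      ((Sht F n).ncard : ℝ) ≤ (Nat.card F : ℝ) ^ (10 * n + 2) := by
  have e : (Nat.card F : ℝ) ^ (10 * n + 2) = (Nat.card F : ℝ) ^ (4 * n + 1) *
      (Nat.card F : ℝ) ^ (6 * n + 1) := by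
    rw [← pow_add]
    ring_nf
  have hPP : ((PP F n).ncard : ℝ) = (Nat.card F : ℝ) ^ (4 * n + 1) *
      (Nat.card F : ℝ) ^ (6 * n + 1) := by
    rw [PP_ncard]
    push_cast
    rfl
  rw [e, sht_ncard]
  constructor
  · have h4 := bad_le h3 n
    have h4' : ((PP F n ∩ {p | disc 0 p.1 p.2 = 0}).ncard : ℝ) ≤
        2 * (Nat.card F : ℝ) ^ (4 * n + 1) := by exact_mod_cast h4
    have h5 : ((PP F n \ {p | disc 0 p.1 p.2 = 0}).ncard : ℝ) +
        (PP F n ∩ {p | disc 0 p.1 p.2 = 0}).ncard = (PP F n).ncard := by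
      have := Set.ncard_inter_add_ncard_sdiff_eq_ncard (PP F n)
        {p : F[X] × F[X] | disc 0 p.1 p.2 = 0} (PP_finite n)
      rw [add_comm]
      exact_mod_cast this
    rw [hPP] at h5
    have hq : (3 : ℝ) ≤ Nat.card F := by exact_mod_cast three_le h2
    have h6 : (3 : ℝ) ≤ (Nat.card F : ℝ) ^ (6 * n + 1) := by
      refine hq.trans ?_
      have : (Nat.card F : ℝ) ^ 1 ≤ (Nat.card F : ℝ) ^ (6 * n + 1) :=
        pow_le_pow_right₀ (by linarith) (by omega)
      simpa using this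
    have h7 : (0 : ℝ) ≤ (Nat.card F : ℝ) ^ (4 * n + 1) := by positivity
    nlinarith [mul_le_mul_of_nonneg_left h6 h7]
  · rw [← hPP]
    exact_mod_cast Set.ncard_le_ncard Set.sdiff_subset (PP_finite n)

end SHM

theorem shm_thm : SHMStmt := fun _ _ _ h2 h3 =>
  ⟨fun G hG n => SHM.part1 G hG n, fun n => SHM.part2 h2 h3 n⟩

end Pool.AVS
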